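import Mathlib
import Pool.Agent.Q84.Rnc.Up

set_option autoImplicit false

universe u

namespace Pool.Agent.Results.MP_ec1cce_ag.OddDimension

open MvPolynomial

/-- The homogeneous ideal of a point of projective space: the ideal of `K[x_0, ..., x_n]` generated
by all homogeneous polynomials vanishing at the point. -/
noncomputable def pointIdeal {K : Type u} [Field K] {n : ℕ}
    (p : Projectivization K (Fin (n + 1) → K)) : Ideal (MvPolynomial (Fin (n + 1)) K) :=
  Ideal.span {F | (∃ d, F.IsHomogeneous d) ∧ eval p.rep F = 0}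

/-- The `k`-th symbolic power of the ideal of a finite set of points: the intersection of the
`k`-th powers of the ideals of the points. -/
noncomputable def symbolicPower {K : Type u} [Field K] {n : ℕ}
    (Z : Finset (Projectivization K (Fin (n + 1) → K))) (k : ℕ) :
    Ideal (MvPolynomial (Fin (n + 1)) K) :=
  ⨅ p ∈ Z, pointIdeal p ^ k

/-- No `n + 1` points of `Z` lie on a hyperplane. -/
def LinearlyGeneral {K : Type u} [Field K] {n : ℕ}
    (Z : Finset (Projectivization K (Fin (n + 1) → K))) : Prop :=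
  ∀ f : (Fin (n + 1) → K) →ₗ[K] K, f ≠ 0 → ∀ S ⊆ Z, (∀ p ∈ S, f p.rep = 0) → S.card ≤ n

theorem pointIdeal_eq {K : Type u} [Field K] {n : ℕ}
    (p : Projectivization K (Fin (n + 1) → K)) :
    pointIdeal p = Pool.Agent.H737R3.linI p.rep := by
  apply le_antisymm
  · unfold pointIdeal
    rw [Ideal.span_le]
    rintro F ⟨⟨d, hd⟩, hF⟩
    have h1 : F ∈ Pool.Agent.Chud.mI p.rep ^ 1 := by
      rw [pow_one]; exact hF
    have h2 := Pool.Agent.H737R3.mem_linI_pow hd p.rep_nonzero h1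
    rwa [pow_one] at h2
  · unfold Pool.Agent.H737R3.linI
    rw [Ideal.span_le]
    rintro F ⟨h1, h2⟩
    exact Ideal.subset_span ⟨⟨1, h1⟩, h2⟩

/-- **Initial degree of the symbolic powers of `n + 3` points, `n` odd.** Let `n` be odd and let `Z`
be a set of `n + 3` points in linearly general position in `n`-dimensional projective space over a
field. For every `k ≥ 1` the least degree of a nonzero form in the `k`-th symbolic power of the
ideal of `Z` is the round-up of `(n + 1) (n + 3) k / (n ^ 2 + 2 n - 1)`. -/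
theorem result (K : Type u) [Field K] (n : ℕ) (hn : Odd n)
    (Z : Finset (Projectivization K (Fin (n + 1) → K))) (hZ : Z.card = n + 3)
    (hgen : LinearlyGeneral Z) (k : ℕ) (hk : 1 ≤ k) :
    IsLeast {d : ℕ | ∃ F ∈ symbolicPower Z k, F ≠ 0 ∧ F.IsHomogeneous d}
      ⌈((n + 1) * (n + 3) * k : ℚ) / (n ^ 2 + 2 * n - 1)⌉₊ := by
  classical
  obtain ⟨M, rfl⟩ := hn
  let φ := Z.equivFinOfCardEq hZ
  let P : Fin (2 * M + 1 + 3) → Fin (2 * M + 1 + 1) → K := fun i => (φ.symm i).1.rep
  have hP : Pool.Agent.Q84.Rnc.LGP P := by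
    intro f hf s hs
    have h1 := hgen f hf (s.image fun i => (φ.symm i).1) (by
      intro p hp
      obtain ⟨i, -, rfl⟩ := Finset.mem_image.mp hp
      exact (φ.symm i).2) (by
      intro p hp
      obtain ⟨i, hi, rfl⟩ := Finset.mem_image.mp hp
      exact hs i hi)
    rwa [Finset.card_image_of_injective _ (fun i j h => φ.symm.injective (Subtype.ext h))] at h1
  have hmem : ∀ (d : ℕ) (F : MvPolynomial (Fin (2 * M + 1 + 1)) K), F.IsHomogeneous d →
      (F ∈ symbolicPower Z k ↔ ∀ i, F ∈ Pool.Agent.Chud.mI (P i) ^ k) := by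
    intro d F hF
    rw [symbolicPower, Ideal.mem_iInf]
    constructor
    · intro h i
      have h1 := h (φ.symm i).1
      rw [Ideal.mem_iInf] at h1
      have h2 := h1 (φ.symm i).2
      rw [pointIdeal_eq] at h2
      exact Ideal.pow_right_mono (Pool.Agent.H737R3.linI_le_mI _) k h2
    · intro h p
      rw [Ideal.mem_iInf]
      intro hp
      have h1 := h (φ ⟨p, hp⟩)
      simp only [P, Equiv.symm_apply_apply] at h1
      rw [pointIdeal_eq]
      exact Pool.Agent.H737R3.mem_linI_pow hF p.rep_nonzero h1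
  have hq : (0 : ℚ) < ((2 * M + 1 : ℕ) : ℚ) ^ 2 + 2 * ((2 * M + 1 : ℕ) : ℚ) - 1 := by
    push_cast
    have : (0 : ℚ) ≤ M := Nat.cast_nonneg _
    nlinarith
  have hiff : ∀ d : ℕ, (((2 * M + 1 : ℕ) + 1) * ((2 * M + 1 : ℕ) + 3) * k : ℚ) /
      (((2 * M + 1 : ℕ) : ℚ) ^ 2 + 2 * ((2 * M + 1 : ℕ) : ℚ) - 1) ≤ d ↔
      2 * (M + 1) * (M + 2) * k ≤ (2 * M ^ 2 + 4 * M + 1) * d := by
    intro d
    rw [div_le_iff₀ hq, ← Nat.cast_le (α := ℚ)]
    push_cast
    constructor <;> intro h <;> nlinarith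
  constructor
  · set D := ⌈(((2 * M + 1 : ℕ) + 1) * ((2 * M + 1 : ℕ) + 3) * k : ℚ) /
      (((2 * M + 1 : ℕ) : ℚ) ^ 2 + 2 * ((2 * M + 1 : ℕ) : ℚ) - 1)⌉₊ with hD
    have h1 := (hiff D).mp (Nat.le_ceil _)
    have h2 : 0 < D := by
      rcases Nat.eq_zero_or_pos D with h0 | h0
      · rw [h0, mul_zero] at h1
        have : 0 < 2 * (M + 1) * (M + 2) * k := by positivity
        omega
      · exact h0
    obtain ⟨F, f0, f1, f2⟩ := Pool.Agent.Q84.Rnc.upper hP h2 h1
    exact ⟨F, (hmem D F f1).mpr f2, f0, f1⟩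
  · rintro d ⟨F, f2, f0, f1⟩
    rw [Nat.ceil_le, hiff]
    exact Pool.Agent.Q84.Rnc.lower hP f0 f1 ((hmem d F f1).mp f2)

end Pool.Agent.Results.MP_ec1cce_ag.OddDimension
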